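import Pool.Agent.W398.SG.StmC

/-!
# Project SG (MP_9a3597_al), part C: construction of the Clifford decomposition

`main : S_IRR → S_SYS`.
-/

namespace Pool.Agent.W395.SG.Sys

open Pool.Agent.W37.SG Pool.Agent.W398.SG.C

section

variable {p : ℕ} [Fact p.Prime] {P T : Type} [Group P] [AddCommGroup T] [Module ℤ_[p] T]

theorem mul_ap (ρ : Act p P T) (g h : P) (x : T) : ρ (g * h) x = ρ g (ρ h x) := by
  rw [map_mul]; rfl

theorem one_ap (ρ : Act p P T) (x : T) : ρ (1 : P) x = x := by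
  rw [map_one]; rfl

theorem inv_ap (ρ : Act p P T) (g : P) (x : T) : ρ g⁻¹ (ρ g x) = x := by
  rw [← mul_ap, inv_mul_cancel, one_ap]

/-- the sum of the first `p` powers -/
noncomputable def SS (ρ : Act p P T) (u : P) : T →ₗ[ℤ_[p]] T :=
  ∑ j ∈ Finset.range p, ρ (u ^ j)

theorem SS_ap (ρ : Act p P T) (u : P) (x : T) :
    SS ρ u x = ∑ j ∈ Finset.range p, ρ (u ^ j) x := by
  rw [SS, LinearMap.sum_apply]

theorem pow_fix (ρ : Act p P T) (u : P) (x : T) (hx : ρ u x = x) (j : ℕ) : ρ (u ^ j) x = x := by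
  induction j with
  | zero => rw [pow_zero, one_ap]
  | succ j ih => rw [pow_succ, mul_ap, hx, ih]

/-- (A) -/
theorem SS_fix (ρ : Act p P T) (u : P) (hu : u ^ p = 1) (x : T) :
    ρ u (SS ρ u x) = SS ρ u x := by
  rw [SS_ap, map_sum]
  have h1 : ∀ j ∈ Finset.range p, ρ u (ρ (u ^ j) x) = ρ (u ^ (j + 1)) x := by
    intro j _
    rw [← mul_ap, pow_succ']
  rw [Finset.sum_congr rfl h1]
  have h2 := Finset.sum_range_succ (fun j => ρ (u ^ j) x) p
  have h3 := Finset.sum_range_succ' (fun j => ρ (u ^ j) x) p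
  rw [h2] at h3
  simp only [hu, pow_zero] at h3
  exact (add_right_cancel h3).symm

/-- (B) -/
theorem SS_of_fix (ρ : Act p P T) (u : P) (x : T) (hx : ρ u x = x) :
    SS ρ u x = (p : ℤ_[p]) • x := by
  rw [SS_ap, Finset.sum_congr rfl (fun j _ => pow_fix ρ u x hx j), Finset.sum_const,
    Finset.card_range, Nat.cast_smul_eq_nsmul]

theorem conj_pow' (g u : P) (j : ℕ) : (g⁻¹ * u * g) ^ j = g⁻¹ * u ^ j * g := by
  induction j with
  | zero => simp
  | succ j ih => rw [pow_succ, ih, pow_succ]; group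

/-- (C) -/
theorem SS_conj (ρ : Act p P T) (u g : P) (x : T) :
    SS ρ u (ρ g x) = ρ g (SS ρ (g⁻¹ * u * g) x) := by
  rw [SS_ap, SS_ap, map_sum]
  refine Finset.sum_congr rfl fun j _ => ?_
  rw [← mul_ap, ← mul_ap, conj_pow', ← mul_assoc, ← mul_assoc, mul_inv_cancel, one_mul]

/-- (0a) -/
theorem ker_triv (hIRR : S_IRR) (ρ : Act p P T) (hL : IsLat p T) (hU : Uni p ρ)
    (hinj : Function.Injective ρ) (u : P) (hu : ∀ g, g * u = u * g) (hu1 : u ≠ 1) (x : T)
    (hx : ρ u x = x) : x = 0 := by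
  have hinv : ∀ (g : P) (y : T), (ρ u - 1) y = 0 → (ρ u - 1) (ρ g y) = 0 := by
    intro g y hy
    rw [LinearMap.sub_apply, sub_eq_zero] at hy ⊢
    have hy' : ρ u y = y := hy
    show ρ u (ρ g y) = ρ g y
    rw [← mul_ap, ← hu g, mul_ap, hy']
  rcases hIRR p P T ρ hL hU (ρ u - 1) hinv with h | h
  · apply h
    rw [LinearMap.sub_apply, hx]
    exact sub_self x
  · exfalso
    apply hu1
    apply hinj
    rw [map_one]
    ext y
    have := h y
    rw [LinearMap.sub_apply, sub_eq_zero] at this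
    exact this

/-- (0b) -/
theorem SS_zero (hIRR : S_IRR) (ρ : Act p P T) (hL : IsLat p T) (hU : Uni p ρ)
    (hinj : Function.Injective ρ) (u : P) (hu : ∀ g, g * u = u * g) (hu1 : u ≠ 1)
    (hup : u ^ p = 1) (x : T) : SS ρ u x = 0 :=
  ker_triv hIRR ρ hL hU hinj u hu hu1 _ (SS_fix ρ u hup x)

theorem central_pow (z : P) (hz : ∀ g, g * z = z * g) (i : ℕ) : ∀ g, g * z ^ i = z ^ i * g := by
  intro g
  exact (Commute.pow_right (hz g) i)

/-- (E) -/
theorem sum_E (hIRR : S_IRR) (ρ : Act p P T) (hL : IsLat p T) (hU : Uni p ρ)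
    (hinj : Function.Injective ρ) (z w : P) (hz : ∀ g, g * z = z * g) (hzo : orderOf z = p)
    (x : T) : ∑ i ∈ Finset.range p, SS ρ (w * z ^ i) x = (p : ℤ_[p]) • x := by
  have hpp : p.Prime := Fact.out
  have h1 : ∀ i ∈ Finset.range p, SS ρ (w * z ^ i) x =
      ∑ j ∈ Finset.range p, ρ (w ^ j) (ρ ((z ^ j) ^ i) x) := by
    intro i _
    rw [SS_ap]
    refine Finset.sum_congr rfl fun j _ => ?_
    rw [← mul_ap]
    have hc : Commute w (z ^ i) := central_pow z hz i w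
    rw [hc.mul_pow, ← pow_mul, ← pow_mul, mul_comm i j]
  rw [Finset.sum_congr rfl h1, Finset.sum_comm]
  have h2 : ∀ j ∈ Finset.range p, (∑ i ∈ Finset.range p, ρ (w ^ j) (ρ ((z ^ j) ^ i) x)) =
      if j = 0 then (p : ℤ_[p]) • x else 0 := by
    intro j hj
    rw [← map_sum, ← SS_ap]
    split_ifs with hj0
    · subst hj0
      rw [SS_of_fix ρ (z ^ 0) x (by rw [pow_zero, one_ap]), pow_zero, one_ap]
    · have hne : z ^ j ≠ 1 := by
        intro h
        have h3 := orderOf_dvd_of_pow_eq_one h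
        rw [hzo] at h3
        have h4 := Nat.le_of_dvd (Nat.pos_of_ne_zero hj0) h3
        rw [Finset.mem_range] at hj
        omega
      have hzp : (z ^ j) ^ p = 1 := by
        rw [← pow_mul, mul_comm, pow_mul, ← hzo, pow_orderOf_eq_one, one_pow]
      rw [SS_zero hIRR ρ hL hU hinj (z ^ j) (central_pow z hz j) hne hzp, map_zero]
  rw [Finset.sum_congr rfl h2, Finset.sum_ite_eq', if_pos (Finset.mem_range.mpr hpp.pos)]

/-- (2) -/
theorem not_central (hIRR : S_IRR) (ρ : Act p P T) (hL : IsLat p T) (hU : Uni p ρ)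
    (hinj : Function.Injective ρ) (z w : P) (hz : ∀ g, g * z = z * g) (hzo : orderOf z = p)
    (hwp : w ^ p = 1) (hwz : w ∉ Subgroup.zpowers z) : ¬ ∀ g, g * w = w * g := by
  intro hw
  obtain ⟨_, htf, x, hx⟩ := hL
  apply hx
  apply htf
  rw [← sum_E hIRR ρ ⟨‹_›, htf, x, hx⟩ hU hinj z w hz hzo x]
  refine Finset.sum_eq_zero fun i _ => ?_
  refine SS_zero hIRR ρ ⟨‹_›, htf, x, hx⟩ hU hinj (w * z ^ i) ?_ ?_ ?_ x
  · intro g
    rw [← mul_assoc, hw g, mul_assoc, central_pow z hz i g, mul_assoc]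
  · intro h
    apply hwz
    have : w = (z ^ i)⁻¹ := eq_inv_of_mul_eq_one_left h
    rw [this]
    exact Subgroup.inv_mem _ (Subgroup.pow_mem _ (Subgroup.mem_zpowers z) i)
  · have hc : Commute w (z ^ i) := central_pow z hz i w
    rw [hc.mul_pow, hwp, one_mul, ← pow_mul, mul_comm, pow_mul, ← hzo, pow_orderOf_eq_one,
      one_pow]

/-- the commutator map -/
def cm (z w : P) (hz : ∀ g, g * z = z * g) (hg : ∀ g, ∃ i : ℕ, g⁻¹ * w * g = w * z ^ i) :
    P →* P where
  toFun g := w⁻¹ * (g⁻¹ * w * g)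
  map_one' := by simp
  map_mul' g h := by
    obtain ⟨i, hi⟩ := hg g
    obtain ⟨j, hj⟩ := hg h
    have h1 : (g * h)⁻¹ * w * (g * h) = h⁻¹ * (g⁻¹ * w * g) * h := by group
    have h2 : h⁻¹ * (w * z ^ i) * h = (h⁻¹ * w * h) * z ^ i := by
      have h3 := central_pow z hz i h
      calc h⁻¹ * (w * z ^ i) * h = h⁻¹ * w * (z ^ i * h) := by group
        _ = h⁻¹ * w * (h * z ^ i) := by rw [h3]
        _ = (h⁻¹ * w * h) * z ^ i := by group
    rw [h1, hi, h2, hj]
    have h4 := central_pow z hz i (z ^ j)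
    rw [inv_mul_cancel_left, inv_mul_cancel_left, mul_assoc, inv_mul_cancel_left, h4]

theorem cm_ap (z w : P) (hz : ∀ g, g * z = z * g) (hg : ∀ g, ∃ i : ℕ, g⁻¹ * w * g = w * z ^ i)
    (g : P) : cm z w hz hg g = w⁻¹ * (g⁻¹ * w * g) := rfl

theorem cm_ker (z w : P) (hz : ∀ g, g * z = z * g) (hg : ∀ g, ∃ i : ℕ, g⁻¹ * w * g = w * z ^ i)
    (g : P) : g ∈ (cm z w hz hg).ker ↔ g⁻¹ * w * g = w := by
  rw [MonoidHom.mem_ker, cm_ap, inv_mul_eq_one, eq_comm]

theorem cm_range (z w : P) (hz : ∀ g, g * z = z * g) (hzo : orderOf z = p)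
    (hg : ∀ g, ∃ i : ℕ, g⁻¹ * w * g = w * z ^ i) (hnc : ¬ ∀ g, g * w = w * g) :
    (cm z w hz hg).range = Subgroup.zpowers z := by
  have hpp : p.Prime := Fact.out
  have hle : (cm z w hz hg).range ≤ Subgroup.zpowers z := by
    rintro _ ⟨g, rfl⟩
    obtain ⟨i, hi⟩ := hg g
    rw [cm_ap, hi, inv_mul_cancel_left]
    exact Subgroup.pow_mem _ (Subgroup.mem_zpowers z) i
  have hcard : Nat.card (Subgroup.zpowers z) = p := by rw [Nat.card_zpowers, hzo]
  have hfin : Finite (Subgroup.zpowers z) := Nat.finite_of_card_ne_zero (by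
    rw [hcard]; exact hpp.ne_zero)
  have hdvd : Nat.card (cm z w hz hg).range ∣ p := by
    have := Subgroup.card_dvd_of_le hle
    rwa [hcard] at this
  rcases (Nat.dvd_prime hpp).mp hdvd with h1 | h1
  · exfalso
    apply hnc
    intro g
    have h2 : (cm z w hz hg).range = ⊥ := Subgroup.card_eq_one.mp h1
    have h3 : cm z w hz hg g ∈ (cm z w hz hg).range := ⟨g, rfl⟩
    rw [h2, Subgroup.mem_bot, cm_ap, inv_mul_eq_one] at h3
    have h4 : g * w = g * (g⁻¹ * w * g) := by rw [← h3]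
    rw [h4]; group
  · exact Subgroup.eq_of_le_of_card_ge hle (by rw [hcard, h1])

end

theorem main : S_IRR → S_SYS := by
  intro hIRR p _ P T _ _ _ _ ρ hL hU hinj z w hz hzo hwp hwz hg
  have hpp : p.Prime := Fact.out
  have hnc := not_central hIRR ρ hL hU hinj z w hz hzo hwp hwz
  have hrg := cm_range z w hz hzo hg hnc
  have hsurj : ∀ i : ℕ, ∃ g, g⁻¹ * w * g = w * z ^ i := by
    intro i
    have : z ^ i ∈ (cm z w hz hg).range := by
      rw [hrg]
      exact Subgroup.pow_mem _ (Subgroup.mem_zpowers z) i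
    obtain ⟨g, hg'⟩ := this
    refine ⟨g, ?_⟩
    rw [cm_ap] at hg'
    rw [← hg', mul_inv_cancel_left]
  have hz1 : z ≠ 1 := by
    intro h
    rw [h, orderOf_one] at hzo
    exact hpp.one_lt.ne hzo
  have hfix : ∀ x, (∀ g, SS ρ w (ρ g x) = 0) → x = 0 := by
    intro x hx
    apply hL.2.1
    rw [← sum_E hIRR ρ hL hU hinj z w hz hzo x]
    refine Finset.sum_eq_zero fun i _ => ?_
    obtain ⟨g, hgi⟩ := hsurj i
    have h1 := hx g
    rw [SS_conj, hgi] at h1
    rw [← inv_ap ρ g (SS ρ (w * z ^ i) x), h1, map_zero]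
  refine ⟨(cm z w hz hg).ker, LinearMap.ker (ρ w - 1), SS ρ w, ?_, ?_, ?_, ?_, ?_, ?_, hfix, ?_⟩
  · rw [Subgroup.index_ker, hrg, Nat.card_zpowers, hzo]
  · intro g hgk x hx
    rw [cm_ker] at hgk
    rw [LinearMap.mem_ker, LinearMap.sub_apply, sub_eq_zero] at hx ⊢
    have hx' : ρ w x = x := hx
    show ρ w (ρ g x) = ρ g x
    have h1 : w * g = g * w := by
      calc w * g = g * (g⁻¹ * w * g) := by group
        _ = g * w := by rw [hgk]
    rw [← mul_ap, h1, mul_ap, hx']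
  · intro x
    rw [LinearMap.mem_ker, LinearMap.sub_apply, sub_eq_zero]
    exact SS_fix ρ w hwp x
  · intro x hx
    rw [LinearMap.mem_ker, LinearMap.sub_apply, sub_eq_zero] at hx
    exact SS_of_fix ρ w x hx
  · intro g hgk x
    rw [cm_ker] at hgk
    rw [SS_conj, hgk]
  · intro g hgk x hx
    rw [cm_ker] at hgk
    rw [LinearMap.mem_ker, LinearMap.sub_apply, sub_eq_zero] at hx
    have hx' : ρ w x = x := hx
    obtain ⟨i, hi⟩ := hg g
    rw [SS_conj, hi]
    have hne : z ^ i ≠ 1 := by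
      intro h
      rw [h, mul_one] at hi
      exact hgk hi
    have hzp : (z ^ i) ^ p = 1 := by
      rw [← pow_mul, mul_comm, pow_mul, ← hzo, pow_orderOf_eq_one, one_pow]
    have h1 : SS ρ (w * z ^ i) x = SS ρ (z ^ i) x := by
      rw [SS_ap, SS_ap]
      refine Finset.sum_congr rfl fun j _ => ?_
      have hc : Commute w (z ^ i) := central_pow z hz i w
      rw [hc.mul_pow, (hc.pow_pow j j).eq, mul_ap, pow_fix ρ w x hx']
    rw [h1, SS_zero hIRR ρ hL hU hinj (z ^ i) (central_pow z hz i) hne hzp, map_zero]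
  · obtain ⟨_, _, x, hx⟩ := id hL
    have h1 : ∃ g, SS ρ w (ρ g x) ≠ 0 := by
      by_contra h
      push Not at h
      exact hx (hfix x h)
    obtain ⟨g, hgx⟩ := h1
    refine ⟨z, ?_, SS ρ w (ρ g x), ?_, ?_⟩
    · rw [cm_ker, mul_assoc, hz w, inv_mul_cancel_left]
    · rw [LinearMap.mem_ker, LinearMap.sub_apply, sub_eq_zero]
      exact SS_fix ρ w hwp _
    · intro h
      exact hgx (ker_triv hIRR ρ hL hU hinj z hz hz1 _ h)

end Pool.Agent.W395.SG.Sys
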